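import Pool.Agent.Helper79.BPath.Core
import Pool.Agent.Helper17.BPath.Paths
import Pool.Agent.Helper59.BPath.PieceB
import Pool.Agent.Helper9.BPath.Main

/-!
# An oracle relative to which `BPP_path` has no complete set
-/

namespace Pool.Agent.Results.MP_436e6e_lc.NoCompleteSets

open Pool.Agent.BPath

/-- There is an oracle relative to which `BPP_path` has no many-one complete set. -/
theorem result : ∃ X : Set (List Bool), ¬ ∃ C : Set (List Bool), Complete X C :=
  Pool.Agent.Helper9.BPath.main_of
    (fun t K ht hK hN acc rej ha hr h1 h2 hgap hlow hhigh =>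
      core t K ht hK hN acc rej ha hr h1 h2 hgap hlow hhigh)
    Pool.Agent.Helper17.BPath.paths_conical
    Pool.Agent.Helper17.BPath.paths_pos
    Pool.Agent.Helper17.BPath.paths_le
    Pool.Agent.Helper17.BPath.paths_support
    Pool.Agent.Helper59.BPath.exists_machine

end Pool.Agent.Results.MP_436e6e_lc.NoCompleteSets
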